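import Pool.Agent.Q92.AR.Stm2

set_option autoImplicit false

/-!
Project AR (helper92), job ORD: moduli prime to `B` for which the order of `a` is divisible by `n`.
-/

namespace Pool.Agent.Q84.AR

open Finset

/-- `1 + x + ... + x ^ (l - 1)` has a prime factor different from `l` -/
theorem exists_factor {l x : ℕ} (hl : l.Prime) (hx : 2 ≤ x) (h2 : l = 2 → ∃ y, x = y ^ 2) :
    ∃ q : ℕ, q.Prime ∧ q ≠ l ∧ q ∣ ∑ i ∈ range l, x ^ i := by
  by_contra hcon
  push Not at hcon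
  obtain ⟨c, hc⟩ : ∃ c : ℕ, c = ∑ i ∈ range l, x ^ i := ⟨_, rfl⟩
  rw [← hc] at hcon
  have hl2 := hl.two_le
  have hcl : l < c := by
    have h1 : ∑ i ∈ range l, (1 + (if i = 0 then 0 else 1)) ≤ c := by
      rw [hc]
      refine sum_le_sum fun i _ => ?_
      by_cases hi : i = 0
      · simp [hi]
      · rw [if_neg hi]
        calc 1 + 1 ≤ x := hx
          _ ≤ x ^ i := Nat.le_self_pow hi x
    rw [sum_add_distrib, sum_const, card_range, smul_eq_mul, mul_one] at h1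
    have h3 : 1 ≤ ∑ i ∈ range l, (if i = 0 then 0 else 1) := by
      refine le_trans (le_of_eq ?_) (single_le_sum (f := fun i => if i = 0 then 0 else 1)
        (fun i _ => Nat.zero_le _) (mem_range.2 (show 1 < l by omega)))
      simp
    omega
  have hc0 : c ≠ 0 := by omega
  have hcp : c = l ^ c.primeFactorsList.length := by
    apply Nat.eq_prime_pow_of_unique_prime_dvd hc0
    intro q hq hqc
    by_contra h
    exact hcon q hq h hqc
  have hv : 2 ≤ c.primeFactorsList.length := by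
    by_contra h
    have h5 : l ^ c.primeFactorsList.length ≤ l ^ 1 := Nat.pow_le_pow_right hl.pos (by omega)
    rw [← hcp, pow_one] at h5
    omega
  have hsq : l ^ 2 ∣ c := by
    rw [hcp]
    exact pow_dvd_pow l hv
  have hlc : l ∣ c := (dvd_pow_self l (by norm_num)).trans hsq
  have hgeom : c * (x - 1) + 1 = x ^ l := by
    have h1 := Nat.geomSum_eq hx l
    rw [← hc] at h1
    have h3 : x - 1 ∣ x ^ l - 1 := by
      have := Nat.sub_dvd_pow_sub_pow x 1 l
      rwa [one_pow] at this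
    have h4 : c * (x - 1) = x ^ l - 1 := by
      rw [h1]
      exact Nat.div_mul_cancel h3
    have h5 : 1 ≤ x ^ l := Nat.one_le_pow _ _ (by omega)
    omega
  have : Fact l.Prime := ⟨hl⟩
  have hxl : (x : ZMod l) = 1 := by
    have h1 : ((c * (x - 1) + 1 : ℕ) : ZMod l) = ((x ^ l : ℕ) : ZMod l) := by rw [hgeom]
    push_cast at h1
    rw [ZMod.pow_card, (ZMod.natCast_eq_zero_iff c l).2 hlc, zero_mul, zero_add] at h1
    exact h1.symm
  obtain ⟨b, hb⟩ : ∃ b : ℕ, x = 1 + l * b := by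
    have h1 : ((x - 1 : ℕ) : ZMod l) = 0 := by
      rw [Nat.cast_sub (by omega), hxl]
      simp
    obtain ⟨b, hb⟩ := (ZMod.natCast_eq_zero_iff _ _).1 h1
    exact ⟨b, by omega⟩
  rcases hl.eq_two_or_odd' with h | hodd
  · obtain ⟨y, hy⟩ := h2 h
    subst h
    rw [sum_range_succ, sum_range_one, pow_zero, pow_one] at hc
    have h3 : c % 4 = 0 := Nat.mod_eq_zero_of_dvd (by simpa using hsq)
    have h4 : y ^ 2 % 4 = 0 ∨ y ^ 2 % 4 = 1 := by
      have : y % 4 = 0 ∨ y % 4 = 1 ∨ y % 4 = 2 ∨ y % 4 = 3 := by omega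
      rcases this with h | h | h | h <;> simp [Nat.pow_mod, h]
    omega
  · have h1 := odd_sq_dvd_geom_sum₂_sub (R := ℤ) (1 : ℤ) (b : ℤ) hodd
    simp only [one_pow, mul_one] at h1
    have h3 : ((c : ℕ) : ℤ) = ∑ i ∈ range l, (1 + (l : ℤ) * b) ^ i := by
      rw [hc, hb]
      push_cast
      rfl
    rw [← h3] at h1
    have h4 : ((l : ℤ)) ^ 2 ∣ (c : ℤ) := by exact_mod_cast hsq
    have h5 : ((l : ℤ)) ^ 2 ∣ (l : ℤ) := by
      have := dvd_sub h4 h1
      simpa using this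
    have h6 : l ^ 2 ∣ l := by exact_mod_cast h5
    have h7 := Nat.le_of_dvd hl.pos h6
    nlinarith

/-- a prime modulo which `a` has order `l ^ j` -/
theorem exists_ord {l a j : ℕ} (hl : l.Prime) (ha : 2 ≤ a) (hj : 2 ≤ j) :
    ∃ q : ℕ, q.Prime ∧ ¬ q ∣ a ∧ l ^ j < q ∧ ∀ k : ℕ, a ^ k ≡ 1 [MOD q] → l ^ j ∣ k := by
  obtain ⟨i, rfl⟩ : ∃ i, j = i + 1 := ⟨j - 1, by omega⟩
  obtain ⟨x, hx⟩ : ∃ x : ℕ, x = a ^ (l ^ i) := ⟨_, rfl⟩
  have hx2 : 2 ≤ x := by
    rw [hx]
    exact ha.trans (Nat.le_self_pow (pow_ne_zero _ hl.ne_zero) a)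
  obtain ⟨q, hq, hql, hqc⟩ := exists_factor hl hx2 (by
    intro h
    refine ⟨a ^ (l ^ (i - 1)), ?_⟩
    rw [hx, ← pow_mul, h, ← pow_succ]
    congr 2
    omega)
  have : Fact q.Prime := ⟨hq⟩
  have : Fact l.Prime := ⟨hl⟩
  have hsum : ∑ t ∈ range l, (x : ZMod q) ^ t = 0 := by
    have := (ZMod.natCast_eq_zero_iff _ q).2 hqc
    push_cast at this
    exact this
  have hxl : (x : ZMod q) ^ l = 1 := by
    have := geom_sum_mul (x : ZMod q) l
    rw [hsum, zero_mul] at this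
    exact (sub_eq_zero.1 this.symm)
  have hx1 : (x : ZMod q) ≠ 1 := by
    intro h
    rw [h] at hsum
    simp only [one_pow, sum_const, card_range, nsmul_eq_mul, mul_one] at hsum
    have := (ZMod.natCast_eq_zero_iff _ q).1 hsum
    exact hql ((Nat.prime_dvd_prime_iff_eq hq hl).1 this)
  have hxa : (x : ZMod q) = (a : ZMod q) ^ (l ^ i) := by rw [hx]; push_cast; rfl
  rw [hxa] at hx1 hxl
  rw [← pow_mul, ← pow_succ] at hxl
  have hord : orderOf (a : ZMod q) = l ^ (i + 1) := orderOf_eq_prime_pow hx1 hxl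
  have ha0 : (a : ZMod q) ≠ 0 := by
    intro h
    rw [h, zero_pow (pow_ne_zero _ hl.ne_zero)] at hxl
    exact zero_ne_one hxl
  refine ⟨q, hq, ?_, ?_, ?_⟩
  · intro h
    exact ha0 ((ZMod.natCast_eq_zero_iff _ _).2 h)
  · have h1 : orderOf (a : ZMod q) ∣ q - 1 := ZMod.orderOf_dvd_card_sub_one ha0
    rw [hord] at h1
    have h2 := Nat.le_of_dvd (by have := hq.two_le; omega) h1
    have := hq.two_le
    omega
  · intro k hk
    rw [← hord]
    apply orderOf_dvd_of_pow_eq_one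
    have := (ZMod.natCast_eq_natCast_iff _ _ _).2 hk
    push_cast at this
    exact this

/-- moduli prime to `B` for which the order of `a` is divisible by `n` -/
theorem ord0 : ∀ (a n B : ℕ), 2 ≤ a → n ≠ 0 → B ≠ 0 → ∃ m : ℕ, m ≠ 0 ∧ m.Coprime (a * B) ∧
  ∀ k : ℕ, a ^ k ≡ 1 [MOD m] → n ∣ k := by
  intro a n B ha hn hB
  have h1 : ∀ l : ℕ, ∃ q : ℕ, l.Prime → q.Prime ∧ ¬ q ∣ a ∧ ¬ q ∣ B ∧
      ∀ k : ℕ, a ^ k ≡ 1 [MOD q] → l ^ (n.factorization l) ∣ k := by
    intro l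
    by_cases hl : l.Prime
    · obtain ⟨q, h2, h3, h4, h5⟩ := exists_ord (j := n.factorization l + B + 2) hl ha (by omega)
      refine ⟨q, fun _ => ⟨h2, h3, ?_, fun k hk => ?_⟩⟩
      · intro h
        have h6 := Nat.le_of_dvd (Nat.pos_of_ne_zero hB) h
        have h7 : n.factorization l + B + 2 < l ^ (n.factorization l + B + 2) :=
          Nat.lt_pow_self hl.one_lt
        omega
      · exact (pow_dvd_pow l (by omega)).trans (h5 k hk)
    · exact ⟨0, fun h => absurd h hl⟩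
  choose q hq using h1
  refine ⟨∏ l ∈ n.primeFactors, q l, ?_, ?_, ?_⟩
  · rw [Finset.prod_ne_zero_iff]
    intro l hl
    exact (hq l (Nat.prime_of_mem_primeFactors hl)).1.ne_zero
  · apply Nat.Coprime.prod_left
    intro l hl
    obtain ⟨h2, h3, h4, -⟩ := hq l (Nat.prime_of_mem_primeFactors hl)
    exact Nat.Coprime.mul_right ((Nat.Prime.coprime_iff_not_dvd h2).2 h3)
      ((Nat.Prime.coprime_iff_not_dvd h2).2 h4)
  · intro k hk
    rw [Nat.dvd_iff_prime_pow_dvd_dvd]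
    intro p e hp he
    by_cases he0 : e = 0
    · rw [he0, pow_zero]
      exact one_dvd _
    have hpn : p ∣ n := (dvd_pow_self p he0).trans he
    have hpm : p ∈ n.primeFactors := Nat.mem_primeFactors.2 ⟨hp, hpn, hn⟩
    have h2 := (hq p hp).2.2.2 k (hk.of_dvd (dvd_prod_of_mem q hpm))
    refine (pow_dvd_pow p ?_).trans h2
    exact (hp.pow_dvd_iff_le_factorization hn).1 he

/-- **Job ORD.** -/
theorem ord : Pool.Agent.Q92.AR.S_Ord := fun a n B h1 h2 h3 => ord0 a n B h1 h2 h3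

end Pool.Agent.Q84.AR
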