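import Pool.Agent.Q92.AR.Stm2

set_option autoImplicit false

/-!
Project AR (helper92), jobs FRAC and SGN.
-/

namespace Pool.Agent.Q84.AR

open NumberField IsDedekindDomain Pool.Agent.Q92.AR Filter

section
variable {F : Type} [Field F] [NumberField F]

/-- divisibility by an integer is local -/
theorem dvd_of_val {N : ℕ} (hN : N ≠ 0) (a : 𝓞 F)
    (h : ∀ v : HeightOneSpectrum (𝓞 F), (N : 𝓞 F) ∈ v.asIdeal →
      v.valuation F (a : F) ≤ v.valuation F (N : F)) : (N : 𝓞 F) ∣ a := by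
  have hNF : (N : F) ≠ 0 := by exact_mod_cast hN
  have h1 : ((a : F) / N) ∈ (algebraMap (𝓞 F) F).range := by
    apply HeightOneSpectrum.mem_integers_of_valuation_le_one
    intro v
    have hv0 : v.valuation F (N : F) ≠ 0 := (Valuation.ne_zero_iff _).2 hNF
    rw [map_div₀]
    by_cases hv : (N : 𝓞 F) ∈ v.asIdeal
    · exact div_le_one_of_le₀ (h v hv) zero_le
    · have h2 : v.valuation F (N : F) = 1 := by
        have := (HeightOneSpectrum.valuation_eq_one_iff_notMem (K := F) (v := v)).2 hv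
        simpa using this
      rw [h2, div_one]
      exact v.valuation_le_one a
  obtain ⟨c, hc⟩ := h1
  refine ⟨c, ?_⟩
  apply RingOfIntegers.ext
  have h2 : (a : F) = N * (algebraMap (𝓞 F) F c) := by
    rw [hc]
    field_simp
  rw [h2]
  simp

/-- denominators of `x` -/
def den (x : F) : Ideal (𝓞 F) where
  carrier := {b | ∃ a : 𝓞 F, x * algebraMap (𝓞 F) F b = algebraMap (𝓞 F) F a}
  add_mem' := by
    rintro b c ⟨a, ha⟩ ⟨d, hd⟩
    refine ⟨a + d, ?_⟩
    rw [map_add, map_add, mul_add, ha, hd]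
  zero_mem' := ⟨0, by simp⟩
  smul_mem' := by
    rintro r b ⟨a, ha⟩
    refine ⟨r * a, ?_⟩
    rw [smul_eq_mul, map_mul, map_mul, ← ha]
    ring

theorem den_sup {N : ℕ} (hN : N ≠ 0) {x : F} (hx : Cong N x) :
    den x ⊔ Ideal.span {(N : 𝓞 F)} = ⊤ := by
  by_contra h
  obtain ⟨P, hP, hle⟩ := Ideal.exists_le_maximal _ h
  have hNP : (N : 𝓞 F) ∈ P := hle (Ideal.mem_sup_right (Ideal.mem_span_singleton_self _))
  have hP0 : P ≠ ⊥ := by
    rintro rfl
    rw [Ideal.mem_bot] at hNP
    exact hN (by exact_mod_cast hNP)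
  let v : HeightOneSpectrum (𝓞 F) := ⟨P, hP.isPrime, hP0⟩
  have h1 : v.valuation F x = 1 := val_eq_one (v := v) hNP (hx v hNP)
  obtain ⟨n, d, hnd⟩ := v.exists_primeCompl_mul_eq_of_integer x h1.le
  exact d.2 (hle (Ideal.mem_sup_left ⟨n, hnd⟩))

/-- a positive integer denominator -/
theorem exists_nat_den (x : F) : ∃ M : ℕ, M ≠ 0 ∧ (M : 𝓞 F) ∈ den x := by
  have h1 : IsAlgebraic ℤ x := (IsFractionRing.isAlgebraic_iff ℤ ℚ F).2 (Algebra.IsAlgebraic.isAlgebraic x)
  obtain ⟨m, hm, hmx⟩ := h1.exists_integral_multiple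
  refine ⟨m.natAbs, Int.natAbs_ne_zero.2 hm, ?_⟩
  have h2 : IsIntegral ℤ (((m.natAbs : ℕ) : F) * x) := by
    have e : (((m.natAbs : ℕ) : ℤ) : F) = ((m.natAbs : ℕ) : F) := Int.cast_natCast _
    rcases Int.natAbs_eq m with h | h
    · rw [h, zsmul_eq_mul, e] at hmx
      exact hmx
    · rw [h, zsmul_eq_mul, Int.cast_neg, e, neg_mul] at hmx
      have h3 := hmx.neg
      rwa [neg_neg] at h3
  refine ⟨⟨((m.natAbs : ℕ) : F) * x, h2⟩, ?_⟩
  rw [map_natCast, mul_comm]
  rfl

theorem eventually_pos (b : 𝓞 F) {K : ℕ} (hK : K ≠ 0) :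
    ∀ᶠ t : ℕ in atTop, b + t * K ≠ 0 ∧ Pos ((b + t * K : 𝓞 F) : F) := by
  have h1 : ∀ᶠ t : ℕ in atTop, ∀ φ : F →+* ℝ, 0 < φ ((b + t * K : 𝓞 F) : F) := by
    rw [eventually_all]
    intro φ
    have h2 : Tendsto (fun t : ℕ => φ (b : F) + (t : ℝ) * K) atTop atTop := by
      apply tendsto_atTop_add_const_left
      apply Tendsto.atTop_mul_const (by exact_mod_cast Nat.pos_of_ne_zero hK)
      exact tendsto_natCast_atTop_atTop
    filter_upwards [h2.eventually_gt_atTop 0] with t ht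
    push_cast
    simpa using ht
  have h2 : ∀ᶠ t : ℕ in atTop, b + t * K ≠ 0 := by
    by_cases h : ∃ t₀ : ℕ, b + t₀ * K = 0
    · obtain ⟨t₀, ht₀⟩ := h
      filter_upwards [eventually_gt_atTop t₀] with t ht h3
      have h4 : ((t : 𝓞 F) - t₀) * K = 0 := by linear_combination h3 - ht₀
      rcases mul_eq_zero.1 h4 with h5 | h5
      · have : (t : 𝓞 F) = t₀ := sub_eq_zero.1 h5
        have := Nat.cast_injective this
        omega
      · exact hK (by exact_mod_cast h5)
    · push Not at h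
      exact Eventually.of_forall h
  exact h2.and h1

end

/-- **Job FRAC.** -/
theorem frac : S_Frac := by
  intro F _ _ N hN x hx
  obtain ⟨hc, hp⟩ := hx
  have h1 := den_sup hN hc
  rw [Ideal.eq_top_iff_one, Submodule.mem_sup] at h1
  obtain ⟨b₀, hb₀, c, hcN, hbc⟩ := h1
  obtain ⟨e, he⟩ := Ideal.mem_span_singleton.1 hcN
  obtain ⟨M, hM, hMd⟩ := exists_nat_den (x : F)
  obtain ⟨t, ht0, htp⟩ := (eventually_pos b₀ (K := N * M) (mul_ne_zero hN hM)).exists
  obtain ⟨b, hb⟩ : ∃ b : 𝓞 F, b = b₀ + t * ((N * M : ℕ) : 𝓞 F) := ⟨_, rfl⟩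
  rw [← hb] at ht0 htp
  have hbd : b ∈ den (x : F) := by
    rw [hb]
    refine (den (x : F)).add_mem hb₀ ?_
    push_cast
    have e1 : (t : 𝓞 F) * (N * M) = (t * N) * M := by ring
    rw [e1]
    exact (den (x : F)).mul_mem_left _ hMd
  have hbN : (N : 𝓞 F) ∣ b - 1 := by
    refine ⟨t * M - e, ?_⟩
    rw [hb, ← hbc, he]
    push_cast
    ring
  obtain ⟨a, ha⟩ := hbd
  have ha : (x : F) * (b : F) = (a : F) := ha
  have hb0F : (b : F) ≠ 0 := by
    intro h
    exact ht0 (by exact_mod_cast h)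
  have ha0 : a ≠ 0 := by
    rintro rfl
    have : (x : F) * b ≠ 0 := mul_ne_zero x.ne_zero hb0F
    rw [ha] at this
    simp at this
  refine ⟨a, b, ha0, ht0, ?_, hbN, ?_, htp, ha⟩
  · apply dvd_of_val hN
    intro v hv
    obtain ⟨f, hf⟩ := hbN
    have e1 : ((a - 1 : 𝓞 F) : F) = ((x : F) - 1) * b + (N : F) * (f : F) := by
      have e2 : (b : F) - 1 = (N : F) * (f : F) := by
        have := congrArg (algebraMap (𝓞 F) F) hf
        rw [map_sub, map_one, map_mul, map_natCast] at this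
        exact this
      have e3 : ((a - 1 : 𝓞 F) : F) = (a : F) - 1 := by
        show algebraMap (𝓞 F) F (a - 1) = _
        rw [map_sub, map_one]
      rw [e3, ← e2, ← ha]
      ring
    rw [e1]
    refine (Valuation.map_add _ _ _).trans (max_le ?_ ?_)
    · rw [map_mul]
      calc v.valuation F ((x : F) - 1) * v.valuation F (b : F) ≤ v.valuation F (N : F) * 1 :=
            mul_le_mul' (hc v hv) (v.valuation_le_one b)
        _ = _ := mul_one _
    · rw [map_mul]
      calc v.valuation F (N : F) * v.valuation F (f : F) ≤ v.valuation F (N : F) * 1 :=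
            mul_le_mul' le_rfl (v.valuation_le_one f)
        _ = _ := mul_one _
  · intro φ
    rw [← ha, map_mul]
    exact mul_pos (hp φ) (htp φ)

section
variable {F : Type} [Field F] [NumberField F]

/-- elements with prescribed signs -/
theorem exists_sign (s : (F →+* ℝ) → Prop) : ∃ z : F, ∀ φ : F →+* ℝ, φ z ≠ 0 ∧ (0 < φ z ↔ s φ) := by
  classical
  -- the real span of the image of `F` is everything
  obtain ⟨Φ, hΦ⟩ : ∃ Φ : F → ((F →+* ℝ) → ℝ), Φ = fun x φ => φ x := ⟨_, rfl⟩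
  have hspan : Submodule.span ℝ (Set.range Φ) = ⊤ := by
    by_contra h
    obtain ⟨f, hf0, hf⟩ := Submodule.exists_le_ker_of_lt_top _ (lt_top_iff_ne_top.2 h)
    have hrep : ∀ g : (F →+* ℝ) → ℝ, f g = ∑ φ, g φ * f (Pi.single φ 1) := by
      intro g
      have h1 : g = ∑ φ, g φ • (Pi.single φ (1 : ℝ) : (F →+* ℝ) → ℝ) := by
        ext ψ
        rw [Finset.sum_apply]
        simp [Pi.single_apply]
      conv_lhs => rw [h1]
      rw [map_sum]
      exact Finset.sum_congr rfl fun φ _ => by rw [map_smul, smul_eq_mul]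
    have h2 : ∀ x : F, ∑ φ : F →+* ℝ, f (Pi.single φ 1) * φ x = 0 := by
      intro x
      have h3 : Φ x ∈ LinearMap.ker f := hf (Submodule.subset_span ⟨x, rfl⟩)
      rw [LinearMap.mem_ker, hrep, hΦ] at h3
      rw [← h3]
      exact Finset.sum_congr rfl fun φ _ => mul_comm _ _
    have h3 := linearIndependent_monoidHom F ℝ
    have h4 : LinearIndependent ℝ (fun φ : F →+* ℝ => (fun x : F => φ x)) := by
      refine LinearIndependent.comp h3 (fun φ : F →+* ℝ => (φ : F →* ℝ)) ?_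
      intro φ ψ h
      ext x
      exact DFunLike.congr_fun h x
    rw [Fintype.linearIndependent_iff] at h4
    have h5 := h4 (fun φ => f (Pi.single φ 1)) (by
      ext x
      rw [Finset.sum_apply]
      simpa using h2 x)
    apply hf0
    ext φ
    simpa using h5 φ
  obtain ⟨ε, hε⟩ : ∃ ε : (F →+* ℝ) → ℝ, ε = fun φ => if s φ then 1 else -1 := ⟨_, rfl⟩
  have hmem : ε ∈ Submodule.span ℝ (Set.range Φ) := by rw [hspan]; trivial
  rw [Finsupp.mem_span_range_iff_exists_finsupp] at hmem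
  obtain ⟨c, hc⟩ := hmem
  -- approximate the coefficients by rational numbers
  obtain ⟨A, hA⟩ : ∃ A : ℝ, ∀ φ : F →+* ℝ, ∑ x ∈ c.support, |φ x| ≤ A := by
    refine ⟨∑ φ : F →+* ℝ, ∑ x ∈ c.support, |φ x|, fun φ => ?_⟩
    exact Finset.single_le_sum (f := fun φ : F →+* ℝ => ∑ x ∈ c.support, |φ x|)
      (fun i _ => Finset.sum_nonneg fun _ _ => abs_nonneg _) (Finset.mem_univ φ)
  obtain ⟨δ, hδ⟩ : ∃ δ : ℝ, δ = 1 / (2 * (|A| + 1)) := ⟨_, rfl⟩
  have hδ0 : 0 < δ := by rw [hδ]; positivity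
  have hq : ∀ x : F, ∃ q : ℚ, |c x - q| < δ := by
    intro x
    obtain ⟨q, h1, h2⟩ := exists_rat_btwn (show c x - δ < c x by linarith)
    refine ⟨q, ?_⟩
    rw [abs_lt]
    constructor <;> linarith
  choose q hq using hq
  refine ⟨∑ x ∈ c.support, (q x : F) * x, fun φ => ?_⟩
  have h1 : φ (∑ x ∈ c.support, (q x : F) * x) = ∑ x ∈ c.support, (q x : ℝ) * φ x := by
    rw [map_sum]
    exact Finset.sum_congr rfl fun x _ => by rw [map_mul, map_ratCast]
  have h2 : ε φ = ∑ x ∈ c.support, c x * φ x := by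
    rw [← hc, Finsupp.sum, Finset.sum_apply]
    refine Finset.sum_congr rfl fun x _ => ?_
    rw [hΦ]
    rfl
  have h3 : |ε φ - φ (∑ x ∈ c.support, (q x : F) * x)| < 1 := by
    rw [h1, h2, ← Finset.sum_sub_distrib]
    have h4 : ∀ x ∈ c.support, |c x * φ x - (q x : ℝ) * φ x| ≤ δ * |φ x| := by
      intro x _
      rw [← sub_mul, abs_mul]
      exact mul_le_mul_of_nonneg_right (hq x).le (abs_nonneg _)
    refine lt_of_le_of_lt ((Finset.abs_sum_le_sum_abs _ _).trans (Finset.sum_le_sum h4)) ?_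
    rw [← Finset.mul_sum]
    have h5 : δ * ∑ x ∈ c.support, |φ x| ≤ δ * (|A| + 1) :=
      mul_le_mul_of_nonneg_left ((hA φ).trans ((le_abs_self A).trans (by linarith))) hδ0.le
    have h6 : δ * (|A| + 1) = 1 / 2 := by
      rw [hδ]
      have : |A| + 1 ≠ 0 := by positivity
      field_simp
    linarith
  rw [abs_lt] at h3
  have h7 : ε φ = if s φ then 1 else -1 := by rw [hε]
  by_cases hs : s φ
  · rw [if_pos hs] at h7
    rw [h7] at h3
    exact ⟨by linarith [h3.2], iff_of_true (by linarith [h3.2]) hs⟩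
  · rw [if_neg hs] at h7
    rw [h7] at h3
    exact ⟨by linarith [h3.1], iff_of_false (by linarith [h3.1]) hs⟩

end

/-- **Job SGN.** -/
theorem sgn : S_Sgn := by
  intro F _ _ N hN s
  obtain ⟨z, hz⟩ := exists_sign s
  obtain ⟨M, hM, w, hw⟩ := exists_nat_den z
  have hMF : (0 : ℝ) < M := by exact_mod_cast Nat.pos_of_ne_zero hM
  have hwz : ∀ φ : F →+* ℝ, φ (w : F) = φ z * M := by
    intro φ
    have h0 : (w : F) = z * (M : F) := by
      have h := hw
      rw [map_natCast] at h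
      exact h.symm
    rw [h0, map_mul, map_natCast]
  have h1 : ∀ᶠ t : ℕ in atTop, ∀ φ : F →+* ℝ, (0 < 1 + (t : ℝ) * (N * φ (w : F)) ↔ s φ) := by
    rw [eventually_all]
    intro φ
    have hNR : (0 : ℝ) < N := by exact_mod_cast Nat.pos_of_ne_zero hN
    rcases lt_or_gt_of_ne (hz φ).1 with h | h
    · have h2 : ¬ s φ := fun hs => absurd ((hz φ).2.2 hs) (by linarith)
      have h3 : (N : ℝ) * φ (w : F) < 0 := by
        rw [hwz]
        exact mul_neg_of_pos_of_neg hNR (mul_neg_of_neg_of_pos h hMF)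
      have h4 : Tendsto (fun t : ℕ => 1 + (t : ℝ) * (N * φ (w : F))) atTop atBot := by
        apply tendsto_atBot_add_const_left
        exact Tendsto.atTop_mul_const_of_neg h3 tendsto_natCast_atTop_atTop
      filter_upwards [h4.eventually_lt_atBot 0] with t ht
      exact iff_of_false (by linarith) h2
    · have h2 : s φ := (hz φ).2.1 h
      have h3 : 0 < (N : ℝ) * φ (w : F) := by
        rw [hwz]
        exact mul_pos hNR (mul_pos h hMF)
      refine Eventually.of_forall fun t => iff_of_true ?_ h2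
      positivity
  have h2 : ∀ᶠ t : ℕ in atTop, 1 + (t : F) * (N * (w : F)) ≠ 0 := by
    by_cases h : ∃ t₀ : ℕ, 1 + (t₀ : F) * (N * (w : F)) = 0
    · obtain ⟨t₀, ht₀⟩ := h
      filter_upwards [eventually_gt_atTop t₀] with t ht h3
      have h4 : ((t : F) - t₀) * (N * (w : F)) = 0 := by linear_combination h3 - ht₀
      rcases mul_eq_zero.1 h4 with h5 | h5
      · have : (t : F) = t₀ := sub_eq_zero.1 h5
        have := Nat.cast_injective this
        omega
      · rw [h5, mul_zero, add_zero] at h3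
        exact one_ne_zero h3
    · push Not at h
      exact Eventually.of_forall h
  obtain ⟨t, ht1, ht2⟩ := (h1.and h2).exists
  refine ⟨Units.mk0 _ ht2, ?_, ?_⟩
  · intro v hv
    rw [Units.val_mk0, add_sub_cancel_left]
    have e1 : (t : F) * (N * (w : F)) = N * ((t * w : 𝓞 F) : F) := by
      push_cast
      ring
    rw [e1, map_mul]
    calc v.valuation F (N : F) * v.valuation F ((t * w : 𝓞 F) : F) ≤ v.valuation F (N : F) * 1 :=
          mul_le_mul' le_rfl (v.valuation_le_one _)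
      _ = _ := mul_one _
  · intro φ
    rw [Units.val_mk0, map_add, map_one, map_mul, map_mul, map_natCast, map_natCast]
    exact ht1 φ

end Pool.Agent.Q84.AR
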