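import Pool.Agent.Q92.AR.Stm2
import Pool.Agent.Q246.Unram2
import Pool.Agent.Y773.AB.Res
import Pool.Agent.Y773.HG.Asm
import Pool.Agent.Y772.HG.Sgn

set_option autoImplicit false
set_option linter.unusedSectionVars false

/-!
Project AR (helper92), job HECKE: continuation of the L-functions of ray class characters.
-/

namespace Pool.Agent.Q84.AR

open NumberField IsDedekindDomain Pool.Agent.Q92.AR Filter Complex
open Pool.Agent.Y773 (LI zz norm_zz_lt GG TPos FEd natCast_pow_cpow)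
open Pool.Agent.Y772.DK (LA ee ee_zero ee_le VM_of_not VM_pow)

section
variable {K : Type} [Field K] [NumberField K]

/-- a prime ideal as a place -/
noncomputable def hsp (𝔭 : Ideal (𝓞 K)) (h : Prime 𝔭) : HeightOneSpectrum (𝓞 K) :=
  ⟨𝔭, Ideal.isPrime_of_prime h, h.ne_zero⟩

theorem prime_v (v : HeightOneSpectrum (𝓞 K)) : Prime v.asIdeal := v.prime

/-- the logarithm of the L-function as a double sum -/
theorem hasSum_dbl {ψ : Ideal (𝓞 K) →*₀ ℂ} (hψ : ∀ 𝔞, ‖ψ 𝔞‖ ≤ 1) {s : ℂ} (hs : 1 < s.re) :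
    HasSum (fun x : HeightOneSpectrum (𝓞 K) × ℕ => ψ x.1.asIdeal ^ (x.2 + 1) /
      (((x.2 + 1 : ℕ) : ℂ) * (Ideal.absNorm x.1.asIdeal : ℂ) ^ (((x.2 + 1 : ℕ) : ℂ) * s)))
      (LA (ee ψ) s) := by
  have h1 : HasSum (fun 𝔞 : Ideal (𝓞 K) => ee ψ 𝔞 * ((Ideal.absNorm 𝔞 : ℕ) : ℂ) ^ (-s))
      (LA (ee ψ) s) :=
    (Pool.Agent.Y772.DK.term_summable (ee_zero ψ) (ee_le ψ hψ) hs).of_norm.hasSum
  let j : HeightOneSpectrum (𝓞 K) × ℕ → Ideal (𝓞 K) := fun x => x.1.asIdeal ^ (x.2 + 1)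
  have hj : Function.Injective j := by
    rintro ⟨p, k⟩ ⟨q, l⟩ h
    have hp := prime_v p
    have hq := prime_v q
    have h2 : p.asIdeal ^ (k + 1) = q.asIdeal ^ (l + 1) := h
    have hpq : p.asIdeal = q.asIdeal := by
      have h3 : p.asIdeal ∣ q.asIdeal :=
        hp.dvd_of_dvd_pow (h2 ▸ dvd_pow_self p.asIdeal (by omega))
      have := (hp.dvd_prime_iff_associated hq).mp h3
      rwa [associated_iff_eq] at this
    have hpq' : p = q := HeightOneSpectrum.ext hpq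
    subst hpq'
    have h4 : k + 1 = l + 1 := by
      exact pow_injective_of_not_isUnit hp.not_isUnit hp.ne_zero h2
    have h5 : k = l := by omega
    rw [h5]
  have h2 : HasSum ((fun 𝔞 : Ideal (𝓞 K) => ee ψ 𝔞 * ((Ideal.absNorm 𝔞 : ℕ) : ℂ) ^ (-s)) ∘ j)
      (LA (ee ψ) s) := by
    rw [hj.hasSum_iff]
    · exact h1
    · intro 𝔞 h𝔞
      have h3 : ¬ IsPrimePow 𝔞 := by
        rintro ⟨p, k, hp, hk, rfl⟩
        apply h𝔞
        refine ⟨(hsp p hp, k - 1), ?_⟩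
        change p ^ (k - 1 + 1) = p ^ k
        rw [Nat.sub_add_cancel hk]
      unfold ee
      rw [VM_of_not h3, zero_div, ofReal_zero, zero_mul, zero_mul]
  refine h2.congr_fun ?_
  rintro ⟨v, k⟩
  have hv := prime_v v
  have h4 : Ideal.absNorm v.asIdeal ≠ 0 := fun h1 => hv.ne_zero (Ideal.absNorm_eq_zero_iff.mp h1)
  have h5 : Ideal.absNorm v.asIdeal ≠ 1 := fun h2 =>
      (Ideal.isPrime_of_prime hv).ne_top (Ideal.absNorm_eq_one_iff.mp h2)
  have hNlog : Real.log (Ideal.absNorm v.asIdeal) ≠ 0 := by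
    have : (1 : ℝ) < Ideal.absNorm v.asIdeal := by
      exact_mod_cast (by omega : 1 < Ideal.absNorm v.asIdeal)
    exact (Real.log_pos this).ne'
  change ψ v.asIdeal ^ (k + 1) / (((k + 1 : ℕ) : ℂ) * (Ideal.absNorm v.asIdeal : ℂ) ^
      (((k + 1 : ℕ) : ℂ) * s)) =
    ee ψ (v.asIdeal ^ (k + 1)) * ((Ideal.absNorm (v.asIdeal ^ (k + 1)) : ℕ) : ℂ) ^ (-s)
  unfold ee
  rw [VM_pow hv (by omega), map_pow, map_pow, Nat.cast_pow, Real.log_pow]
  have h6 : ((((Ideal.absNorm v.asIdeal : ℕ) ^ (k + 1) : ℕ)) : ℂ) ^ (-s) =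
      (((Ideal.absNorm v.asIdeal : ℕ) : ℂ) ^ (-s)) ^ (k + 1) := by
    exact natCast_pow_cpow _ _ _
  rw [h6]
  have h7 : (Real.log (Ideal.absNorm v.asIdeal) /
      (((k + 1 : ℕ) : ℝ) * Real.log (Ideal.absNorm v.asIdeal)) : ℝ) = 1 / ((k + 1 : ℕ) : ℝ) := by
    field_simp
  rw [h7, Complex.cpow_nat_mul, Complex.cpow_neg, inv_pow, div_eq_mul_inv, mul_inv]
  push_cast
  ring

/-! ## The character of the ideals -/

/-- the divisor of an ideal -/
noncomputable def dv (𝔞 : Ideal (𝓞 K)) : Dv K :=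
  Finsupp.ofSupportFinite
    (fun v => FractionalIdeal.count K v
      (𝔞 : FractionalIdeal (nonZeroDivisors (𝓞 K)) K))
    (by
      have h := FractionalIdeal.finite_factors (K := K)
        (𝔞 : FractionalIdeal (nonZeroDivisors (𝓞 K)) K)
      rw [Filter.eventually_cofinite] at h
      exact h)

theorem dv_apply (𝔞 : Ideal (𝓞 K)) (v : HeightOneSpectrum (𝓞 K)) : dv 𝔞 v =
    FractionalIdeal.count K v (𝔞 : FractionalIdeal (nonZeroDivisors (𝓞 K)) K) := rfl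

theorem dv_mul {𝔞 𝔟 : Ideal (𝓞 K)} (ha : 𝔞 ≠ ⊥) (hb : 𝔟 ≠ ⊥) : dv (𝔞 * 𝔟) = dv 𝔞 + dv 𝔟 := by
  ext v
  rw [Finsupp.add_apply, dv_apply, dv_apply, dv_apply, FractionalIdeal.coeIdeal_mul,
    FractionalIdeal.count_mul]
  · exact FractionalIdeal.coeIdeal_ne_zero.2 ha
  · exact FractionalIdeal.coeIdeal_ne_zero.2 hb

theorem dv_one : dv (1 : Ideal (𝓞 K)) = 0 := by
  ext v
  rw [dv_apply, Finsupp.zero_apply, Ideal.one_eq_top, FractionalIdeal.coeIdeal_top,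
    FractionalIdeal.count_one]

theorem dv_prime (v : HeightOneSpectrum (𝓞 K)) : dv v.asIdeal = Finsupp.single v 1 := by
  classical
  ext w
  rw [dv_apply, FractionalIdeal.count_maximal, Finsupp.single_apply]

theorem dv_span {x : 𝓞 K} (x' : Kˣ) (hx : (x' : K) = (x : K)) : dv (Ideal.span {x}) = prin x' := by
  ext v
  rw [dv_apply, prin_apply, FractionalIdeal.coeIdeal_span_singleton, hx]

open Classical in
/-- the character of the ideals prime to `N` -/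
noncomputable def psi (N : ℕ) (χ : Dv K →+ Additive ℂˣ) : Ideal (𝓞 K) →*₀ ℂ where
  toFun 𝔞 := if 𝔞 ≠ ⊥ ∧ IsCoprime 𝔞 (Ideal.span {(N : 𝓞 K)}) then
    (((χ (dv 𝔞)).toMul : ℂˣ) : ℂ) else 0
  map_zero' := by
    rw [if_neg]
    rintro ⟨h, -⟩
    exact h rfl
  map_one' := by
    rw [if_pos ⟨by
      rw [Ideal.one_eq_top]
      exact top_ne_bot, isCoprime_one_left⟩, dv_one, map_zero]
    rfl
  map_mul' 𝔞 𝔟 := by
    by_cases h1 : 𝔞 ≠ ⊥ ∧ IsCoprime 𝔞 (Ideal.span {(N : 𝓞 K)})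
    · by_cases h2 : 𝔟 ≠ ⊥ ∧ IsCoprime 𝔟 (Ideal.span {(N : 𝓞 K)})
      · rw [if_pos h1, if_pos h2, if_pos ⟨mul_ne_zero h1.1 h2.1, h1.2.mul_left h2.2⟩,
          dv_mul h1.1 h2.1, map_add, toMul_add, Units.val_mul]
      · rw [if_neg h2, mul_zero, if_neg]
        rintro ⟨h3, h4⟩
        exact h2 ⟨fun h => h3 (by rw [h]; exact mul_zero 𝔞), (IsCoprime.mul_left_iff.mp h4).2⟩
    · rw [if_neg h1, zero_mul, if_neg]
      rintro ⟨h3, h4⟩
      exact h1 ⟨fun h => h3 (by rw [h]; exact zero_mul 𝔟), (IsCoprime.mul_left_iff.mp h4).1⟩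

open Classical in
theorem psi_apply (N : ℕ) (χ : Dv K →+ Additive ℂˣ) (𝔞 : Ideal (𝓞 K)) : psi N χ 𝔞 =
    if 𝔞 ≠ ⊥ ∧ IsCoprime 𝔞 (Ideal.span {(N : 𝓞 K)}) then
    (((χ (dv 𝔞)).toMul : ℂˣ) : ℂ) else 0 := rfl

theorem cop_v (N : ℕ) (v : HeightOneSpectrum (𝓞 K)) :
    IsCoprime v.asIdeal (Ideal.span {(N : 𝓞 K)}) ↔ (N : 𝓞 K) ∉ v.asIdeal := by
  rw [Pool.Agent.Y773.AB.cop_iff (prime_v v), Ideal.dvd_span_singleton]

theorem Lc_eq {N : ℕ} {χ : Dv K →+ Additive ℂˣ} (h : ∀ 𝔞, ‖psi N χ 𝔞‖ ≤ 1) {s : ℂ}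
    (hs : 1 < s.re) : Lc N χ s = LI (psi N χ) s := by
  classical
  rw [Pool.Agent.Y772.DK.LI_eq_exp _ h hs, ← (hasSum_dbl h hs).tsum_eq]
  unfold Lc
  congr 1
  refine tsum_congr fun x => ?_
  rw [psi_apply, dv_prime]
  by_cases hx : (N : 𝓞 K) ∈ x.1.asIdeal
  · rw [if_pos hx, if_neg (fun h => (cop_v N x.1).1 h.2 hx), zero_pow (by omega), zero_div]
  · rw [if_neg hx, if_pos ⟨x.1.ne_bot, (cop_v N x.1).2 hx⟩]

/-! ## Continuation of the primitive L-functions -/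

theorem GG_inv {ι : Type} [Fintype ι] {R : ℝ} (hR : 0 < R) (e : ι → ℕ) :
    ∃ G : ℂ → ℂ, Differentiable ℂ G ∧ ∀ s : ℂ, 0 < s.re → GG R e s * G s = 1 := by
  refine ⟨fun s => (R : ℂ) ^ (-(s / 2)) * ∏ i, (Gammaℝ (s + e i))⁻¹, ?_, fun s hs => ?_⟩
  · have hR0 : (R : ℂ) ≠ 0 := by exact_mod_cast hR.ne'
    apply Differentiable.mul
    · intro s
      exact ((differentiableAt_id.div_const 2).neg).const_cpow (Or.inl hR0)
    · refine Differentiable.fun_finsetProd fun i _ => ?_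
      exact differentiable_Gammaℝ_inv.comp (differentiable_id.add_const _)
  · have hR0 : (R : ℂ) ≠ 0 := by exact_mod_cast hR.ne'
    unfold GG
    have h1 : (R : ℂ) ^ (s / 2) * (R : ℂ) ^ (-(s / 2)) = 1 := by
      rw [← Complex.cpow_add _ _ hR0, add_neg_cancel, Complex.cpow_zero]
    have h2 : (∏ i, Gammaℝ (s + e i)) * ∏ i, (Gammaℝ (s + e i))⁻¹ = 1 := by
      rw [← Finset.prod_mul_distrib]
      refine Finset.prod_eq_one fun i _ => mul_inv_cancel₀ (Gammaℝ_ne_zero_of_re_pos ?_)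
      rw [add_re, natCast_re]
      have : (0 : ℝ) ≤ e i := Nat.cast_nonneg _
      linarith
    calc _ = ((R : ℂ) ^ (s / 2) * (R : ℂ) ^ (-(s / 2))) *
        ((∏ i, Gammaℝ (s + e i)) * ∏ i, (Gammaℝ (s + e i))⁻¹) := by ring
      _ = 1 := by rw [h1, h2, one_mul]

open Pool.Agent.Y773 Pool.Agent.Q246 in
theorem cont_prim {𝔣 : Ideal (𝓞 K)} {e : InfinitePlace K → ℕ} {ψ : Ideal (𝓞 K) →*₀ ℂ}
    (ne_bot : 𝔣 ≠ ⊥) (e_le : ∀ w, e w ≤ 1) (e_complex : ∀ w : InfinitePlace K, w.IsComplex → e w = 0)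
    (supp : ∀ 𝔞 : Ideal (𝓞 K), 𝔞 ≠ ⊥ → (ψ 𝔞 ≠ 0 ↔ IsCoprime 𝔞 𝔣))
    (sig : ∀ x : 𝓞 K, x ≠ 0 → x - 1 ∈ 𝔣 → ψ (Ideal.span {x}) =
      ∏ w : InfinitePlace K, (((SignType.sign (w.embedding (x : K)).re : SignType) : ℤ) : ℂ) ^ e w)
    (prim : ∀ 𝔤 : Ideal (𝓞 K), 𝔤 ∣ 𝔣 → 𝔤 ≠ 𝔣 → ∃ x : 𝓞 K, x - 1 ∈ 𝔤 ∧ Pos (x : K) ∧
      IsCoprime (Ideal.span {x}) 𝔣 ∧ ψ (Ideal.span {x}) ≠ 1) :
    (∀ 𝔞, ‖ψ 𝔞‖ ≤ 1) ∧ ∃ g : ℂ → ℂ, Differentiable ℂ g ∧
      ((∀ s : ℂ, 1 < s.re → LI ψ s = g s) ∨ ((∀ 𝔞 : Ideal (𝓞 K), 𝔞 ≠ ⊥ → ψ 𝔞 = 1) ∧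
        ∀ s : ℂ, 1 < s.re → LI ψ s = g s / (s * (s - 1)))) := by
  classical
  have hsg : ∀ x : K, G.sg e x =
      ∏ w : InfinitePlace K, (((SignType.sign (w.embedding x).re : SignType) : ℤ) : ℂ) ^ e w := by
    intro x
    unfold G.sg
    refine Finset.prod_congr rfl fun w _ => ?_
    rcases w.isReal_or_isComplex with hw | hw
    · rw [G.rl_of_isReal hw]
    · rw [e_complex w hw, pow_zero, pow_zero]
  have hsig : ∀ x : 𝓞 K, x ≠ 0 → x - 1 ∈ 𝔣 → ψ (Ideal.span {x}) = G.sg e (x : K) := by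
    intro x h0 h1
    rw [sig x h0 h1, hsg]
  have hray : ∀ x : 𝓞 K, x ≠ 0 → x - 1 ∈ 𝔣 → TPos K x → ψ (Ideal.span {x}) = 1 := by
    intro x h0 h1 h2
    rw [hsig x h0 h1, G.sg_TPos e h0 h2]
  have hp : G.IsPrimChar K 𝔣 ψ := ⟨ne_bot, supp, hray, prim⟩
  refine ⟨hp.norm_le_one Pool.Agent.Y772.G.t_sig, ?_⟩
  by_cases htop : 𝔣 = ⊤
  · have hUC : Unr.UC e ψ := by
      refine ⟨e_le, e_complex, fun 𝔞 h0 => ?_, fun x h0 => hsig x h0 (by rw [htop]; trivial)⟩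
      refine (supp 𝔞 h0).2 ?_
      rw [htop]
      exact Ideal.isCoprime_iff_sup_eq.2 (by simp)
    obtain ⟨U, w, hU, -, hUL, -, -⟩ := hUC.fe
    have hD : (0 : ℝ) < (Ideal.absNorm (differentIdeal ℤ (𝓞 K)) : ℝ) := by
      have : Ideal.absNorm (differentIdeal ℤ (𝓞 K)) ≠ 0 := by
        rw [Ne, Ideal.absNorm_eq_zero_iff]
        exact differentIdeal_ne_bot
      exact_mod_cast Nat.pos_of_ne_zero this
    obtain ⟨Gi, hGi, hGG⟩ := GG_inv hD (G.ex e)
    refine ⟨fun s => U s * Gi s, hU.mul hGi, ?_⟩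
    by_cases ht : Unr.Triv ψ
    · right
      refine ⟨ht, fun s hs => ?_⟩
      have h1 := hUL s hs
      rw [if_pos ht, pow_one] at h1
      have h2 := hGG s (by linarith)
      have hs0 : s ≠ 0 := by
        rintro rfl
        rw [zero_re] at hs
        linarith
      have hs1 : s - 1 ≠ 0 := by
        intro h
        rw [sub_eq_zero.1 h, one_re] at hs
        linarith
      show _ = U s * Gi s / _
      rw [eq_div_iff (mul_ne_zero hs0 hs1), h1]
      linear_combination (-(LI ψ s * (s * (s - 1)))) * h2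
    · left
      intro s hs
      have h1 := hUL s hs
      rw [if_neg ht, pow_zero, one_mul] at h1
      have h2 := hGG s (by linarith)
      show _ = U s * Gi s
      rw [h1]
      linear_combination (-(LI ψ s)) * h2
  · have hM : G.IsModChar 𝔣 e ψ := by
      refine ⟨ne_bot, htop, e_le, e_complex, fun 𝔞 => ?_, hsig⟩
      by_cases h0 : 𝔞 = ⊥
      · subst h0
        have h1 : ψ (⊥ : Ideal (𝓞 K)) = 0 := map_zero ψ
        constructor
        · intro h2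
          exact absurd h1 h2
        · intro h2
          exfalso
          rw [Ideal.isCoprime_iff_sup_eq, bot_sup_eq] at h2
          exact htop h2
      · exact supp 𝔞 h0
    obtain ⟨g, hg, hg2⟩ := G.fe_prim hp hM
    exact ⟨g, hg.diff, Or.inl fun s hs => (hg2 s hs).symm⟩

theorem an {f : ℂ → ℂ} (h : Differentiable ℂ f) (s : ℂ) : AnalyticAt ℂ f s := h.analyticAt s

/-- the conclusion, from a factorization -/
theorem concl {L g : ℂ → ℂ} {p : Prop} (hg : Differentiable ℂ g)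
    (h : (∀ s : ℂ, 1 < s.re → L s = g s) ∨ (¬ p ∧ ∀ s : ℂ, 1 < s.re → L s = g s / (s * (s - 1)))) :
    ∃ f : ℂ → ℂ, MeromorphicOn f Set.univ ∧ (∀ s : ℂ, 1 < s.re → f s = L s) ∧
      (∀ s : ℂ, 0 < s.re → s ≠ 1 → AnalyticAt ℂ f s) ∧ (-1 ≤ meromorphicOrderAt f 1) ∧
      (p → AnalyticAt ℂ f 1) := by
  rcases h with h | ⟨hp, h⟩
  · refine ⟨g, fun s _ => (hg.analyticAt s).meromorphicAt, fun s hs => (h s hs).symm,
      fun s _ _ => hg.analyticAt s, ?_, fun _ => hg.analyticAt 1⟩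
    exact le_trans (by decide) (hg.analyticAt 1).meromorphicOrderAt_nonneg
  · have hd : Differentiable ℂ fun s : ℂ => s * (s - 1) := by fun_prop
    refine ⟨fun s => g s / (s * (s - 1)), fun s _ =>
      (hg.analyticAt s).meromorphicAt.div (hd.analyticAt s).meromorphicAt,
      fun s hs => (h s hs).symm, fun s hs hs1 => ?_, ?_, fun h => absurd h hp⟩
    · refine (hg.analyticAt s).div (hd.analyticAt s) ?_
      refine mul_ne_zero ?_ (sub_ne_zero.2 hs1)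
      rintro rfl
      rw [zero_re] at hs
      exact lt_irrefl _ hs
    · have h1 : AnalyticAt ℂ (fun s : ℂ => g s / s) 1 :=
        (hg.analyticAt 1).div analyticAt_id one_ne_zero
      have h2 : AnalyticAt ℂ (fun s : ℂ => s - 1) 1 := by fun_prop
      have h3 : (fun s : ℂ => g s / (s * (s - 1))) =
          (fun s : ℂ => g s / s) * (fun s : ℂ => s - 1)⁻¹ := by
        funext s
        simp only [Pi.mul_apply, Pi.inv_apply]
        rw [div_mul_eq_div_div, div_eq_mul_inv (g s / s)]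
      have h4 : meromorphicOrderAt (fun s : ℂ => s - 1) 1 = 1 := by
        rw [h2.meromorphicOrderAt_eq]
        have h5 : analyticOrderAt (fun s : ℂ => s - 1) 1 = 1 := by
          have := (h2.analyticOrderAt_eq_natCast (n := 1)).2 ⟨fun _ => 1, analyticAt_const,
            one_ne_zero, Eventually.of_forall fun z => by simp⟩
          simpa using this
        rw [h5]
        rfl
      rw [h3, meromorphicOrderAt_mul h1.meromorphicAt h2.meromorphicAt.inv, meromorphicOrderAt_inv,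
        h4]
      have h6 := h1.meromorphicOrderAt_nonneg
      calc (-1 : WithTop ℤ) = 0 + -1 := by rw [zero_add]
        _ ≤ _ := add_le_add h6 le_rfl

end

/-- **Job HECKE.** -/
theorem hecke : S_Prim → S_Hecke := by
  intro hPrim F _ _ N χ hN hχ
  classical
  obtain ⟨𝔪, h𝔪⟩ : ∃ 𝔪 : Ideal (𝓞 F), 𝔪 = Ideal.span {(N : 𝓞 F)} := ⟨_, rfl⟩
  have hm0 : 𝔪 ≠ ⊥ := by
    rw [h𝔪, Ne, Ideal.span_singleton_eq_bot]
    exact_mod_cast hN
  have hpsi : ∀ 𝔞, psi N χ 𝔞 = if 𝔞 ≠ ⊥ ∧ IsCoprime 𝔞 𝔪 then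
      (((χ (dv 𝔞)).toMul : ℂˣ) : ℂ) else 0 := by
    intro 𝔞
    rw [psi_apply, h𝔪]
  obtain ⟨𝔣, e, ψ', hdvd, hne, hele, hecx, hsupp, hsig, hprim, heq⟩ := hPrim F 𝔪 (psi N χ) hm0 (by
    intro 𝔞 h0
    rw [hpsi]
    constructor
    · intro h
      by_contra h1
      exact h (if_neg fun h2 => h1 h2.2)
    · intro h
      rw [if_pos ⟨h0, h⟩]
      exact Units.ne_zero _) (by
    intro x hx0 hx1 hxp
    have hx0F : (x : F) ≠ 0 := by
      intro h
      exact hx0 (by exact_mod_cast h)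
    have h1 : IsCoprime (Ideal.span {x}) 𝔪 := by
      rw [Ideal.isCoprime_iff_exists]
      refine ⟨x, Ideal.mem_span_singleton_self _, -(x - 1), 𝔪.neg_mem hx1, by ring⟩
    rw [hpsi, if_pos ⟨by rwa [Ne, Ideal.span_singleton_eq_bot], h1⟩,
      dv_span (Units.mk0 (x : F) hx0F) rfl, hχ]
    · rfl
    · refine ⟨?_, ?_⟩
      · intro v hv
        rw [Units.val_mk0]
        rw [h𝔪] at hx1
        obtain ⟨c, hc⟩ := Ideal.mem_span_singleton.1 hx1
        have h2 : (x : F) - 1 = (N : F) * (c : F) := by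
          have := congrArg (algebraMap (𝓞 F) F) hc
          rw [map_sub, map_one, map_mul, map_natCast] at this
          exact this
        rw [h2, map_mul]
        calc v.valuation F (N : F) * v.valuation F (c : F) ≤ v.valuation F (N : F) * 1 :=
              mul_le_mul' le_rfl (v.valuation_le_one _)
          _ = _ := mul_one _
      · rw [Units.val_mk0]
        exact hxp)
  obtain ⟨hnorm, g, hg, hgL⟩ := cont_prim hne hele hecx hsupp hsig hprim
  -- the Euler factors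
  have hE : (∀ 𝔞, ‖psi N χ 𝔞‖ ≤ 1) ∧ ∃ E : ℂ → ℂ, Differentiable ℂ E ∧ ∀ s : ℂ, 1 < s.re →
      LI (psi N χ) s = LI ψ' s * E s := by
    by_cases htop : 𝔪 = ⊤
    · have h1 : psi N χ = ψ' := by
        ext 𝔞
        exact (heq 𝔞 (by
          rw [htop]
          exact Ideal.isCoprime_iff_sup_eq.2 (by simp))).symm
      rw [h1]
      exact ⟨hnorm, fun _ => 1, differentiable_const _, fun s _ => (mul_one _).symm⟩
    · have h1 : psi N χ = Pool.Agent.Y773.AB.res 𝔪 htop ψ' := by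
        ext 𝔞
        by_cases hc : IsCoprime 𝔞 𝔪
        · rw [Pool.Agent.Y773.AB.res_cop htop _ hc, heq 𝔞 hc]
        · rw [Pool.Agent.Y773.AB.res_not htop _ hc, hpsi, if_neg fun h => hc h.2]
      rw [h1]
      exact ⟨Pool.Agent.Y773.AB.norm_res_le htop hnorm, Pool.Agent.Y773.AB.Ef 𝔪 ψ',
        Pool.Agent.Y773.AB.Ef_diff hm0 ψ', fun s hs => Pool.Agent.Y773.AB.LI_res hm0 htop hnorm hs⟩
  obtain ⟨hn1, E, hEd, hEL⟩ := hE
  have hL : ∀ s : ℂ, 1 < s.re → Lc N χ s = LI ψ' s * E s := fun s hs => by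
    rw [Lc_eq hn1 hs, hEL s hs]
  refine concl (g := fun s => g s * E s) (hg.mul hEd) ?_
  rcases hgL with h | ⟨ht, h⟩
  · left
    intro s hs
    rw [hL s hs, h s hs]
  · right
    refine ⟨?_, fun s hs => by rw [hL s hs, h s hs, div_mul_eq_mul_div]⟩
    rintro ⟨D, hD, hχD⟩
    apply hχD
    have h1 : D = ∑ v ∈ D.support, D v • Finsupp.single v (1 : ℤ) := by
      conv_lhs => rw [← Finsupp.sum_single D]
      refine Finset.sum_congr rfl fun v _ => ?_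
      rw [Finsupp.smul_single, smul_eq_mul, mul_one]
    rw [h1, map_sum]
    refine Finset.sum_eq_zero fun v _ => ?_
    rw [map_zsmul]
    by_cases hv : (N : 𝓞 F) ∈ v.asIdeal
    · rw [hD v hv, zero_smul]
    · have hc : IsCoprime v.asIdeal 𝔪 := by
        rw [h𝔪]
        exact (cop_v N v).2 hv
      have h2 : psi N χ v.asIdeal = 1 := by
        rw [← heq _ hc, ht _ v.ne_bot]
      rw [hpsi, if_pos ⟨v.ne_bot, hc⟩, dv_prime] at h2
      have h3 : χ (Finsupp.single v 1) = 0 := by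
        apply Additive.toMul.injective
        exact Units.ext h2
      rw [h3, smul_zero]

end Pool.Agent.Q84.AR
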